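import Pool.Agent.H53.MW.Targets

/-!
HTS: if a set of the family has a small decision tree, then its kernel is hit (helper64).
-/

set_option autoImplicit false

namespace Pool.Agent.H64.MWK

open Finset
open Pool.Agent.H53.MW
open Pool.Agent.H53.MC (Clause Falsified SatBy Line Circuit U Viol toC scope Ins cnt H1 Covers InR
  Bad cf)
open Pool.Agent.H15.FLX (Scopes Signs clause cnf Few en idx FG BR)
open Pool.Agent.H97.SHL (DT bl)

theorem pf_HTS (hINV : T_INV) (hTRE : T_TRE) (hDTR : T_DTR) : T_HTS := by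
  intro n M k m g w s₀ d r s hg hH hw hn hr 𝒬 𝓕 F hR B hB S hS hD p hp
  obtain ⟨Q, hQ1, hQ2, hQ3, hQ4⟩ := hR B hB p hp
  by_contra hcon
  have h1 := (hDTR (Fin n → Bool) 𝒬 (Lfc g F r) (by
    rintro R R' ⟨T, hT1, hT2, hT3⟩ hRR
    exact ⟨T, hT1, hT2, fun x hx => hT3 x (hRR hx)⟩) B n S hD).1 Q hQ1
  have h2 := hTRE g w s₀ d r hg hH hw hn hr 𝒬 F p.1 p.2 Q S hQ2 hQ4 hcon h1
  have h3 : 4 * (th0 n w * 2 ^ (d * s₀)) * S ≤ 4 * (th0 n w * 2 ^ (d * s₀)) * s :=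
    Nat.mul_le_mul_left _ hS
  unfold th1 at hQ3
  omega

end Pool.Agent.H64.MWK
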